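import Pool.Agent.H807Z.Dyer.Weak

set_option autoImplicit false

/-! Bruhat lifting and the description of joins by Bruhat paths. -/

namespace Pool.Agent.H807Z.Dyer

open CoxeterSystem

variable {B : Type*} {M : CoxeterMatrix B} {W : Type*} [Group W] (cs : CoxeterSystem M W)

/-- an edge of the Bruhat graph -/
def Ed (y z : W) : Prop := ∃ t, cs.IsReflection t ∧ z = t * y ∧ cs.length y < cs.length z

/-- the Bruhat order -/
def Br (y w : W) : Prop := Relation.ReflTransGen (Ed cs) y w

open Classical in
/-- the larger of `y`, `s y` -/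
noncomputable def up (i : B) (y : W) : W := if L cs (cs.simple i) y then y else cs.simple i * y

open Classical in
/-- the smaller of `y`, `s y` -/
noncomputable def dn (i : B) (y : W) : W := if L cs (cs.simple i) y then cs.simple i * y else y

variable {cs}

lemma ed_up {i : B} {y : W} (h : ¬ L cs (cs.simple i) y) : Ed cs y (cs.simple i * y) :=
  ⟨_, cs.isReflection_simple i, rfl, by rw [nL_len h]; omega⟩

lemma ed_dn {i : B} {y : W} (h : L cs (cs.simple i) y) : Ed cs (cs.simple i * y) y :=
  ⟨_, cs.isReflection_simple i, by rw [cs.simple_mul_simple_cancel_left], h⟩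

lemma br_up1 (i : B) (y : W) : Br cs y (up cs i y) := by
  unfold up
  split_ifs with h
  · exact .refl
  · exact .single (ed_up h)

lemma br_up2 (i : B) (y : W) : Br cs (cs.simple i * y) (up cs i y) := by
  unfold up
  split_ifs with h
  · exact .single (ed_dn h)
  · exact .refl

lemma br_dn1 (i : B) (y : W) : Br cs (dn cs i y) y := by
  unfold dn
  split_ifs with h
  · exact .single (ed_dn h)
  · exact .refl

lemma br_dn2 (i : B) (y : W) : Br cs (dn cs i y) (cs.simple i * y) := by
  unfold dn
  split_ifs with h
  · exact .refl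
  · exact .single (ed_up h)

lemma ed_updn (i : B) {y z : W} (h : Ed cs y z) :
    Br cs (up cs i y) (up cs i z) ∧ Br cs (dn cs i y) (dn cs i z) := by
  obtain ⟨t, ht, rfl, hl⟩ := h
  by_cases hts : t = cs.simple i
  · subst hts
    have h1 : ¬ L cs (cs.simple i) y := by unfold L; omega
    have h2 : L cs (cs.simple i) (cs.simple i * y) := L_flip.2 h1
    simp only [up, dn, if_pos h2, if_neg h1, cs.simple_mul_simple_cancel_left]
    exact ⟨.refl, .refl⟩
  · have e1 : Br cs y (t * y) := .single ⟨t, ht, rfl, hl⟩
    have e2 : Br cs (cs.simple i * y) (cs.simple i * (t * y)) := by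
      refine .single ⟨cs.simple i * t * cs.simple i, by simpa using ht.conj (cs.simple i), ?_, ?_⟩
      · simp [mul_assoc]
      · have h1 : L cs t (t * y) := by
          unfold L
          rwa [← mul_assoc, ht.mul_self, one_mul]
        have h2 := (L_conj ht hts (t * y)).2 h1
        unfold L at h2
        rwa [show cs.simple i * t * cs.simple i * (cs.simple i * (t * y)) =
          cs.simple i * (t * t) * y by simp [mul_assoc], ht.mul_self, mul_one] at h2
    constructor
    · by_cases h : L cs (cs.simple i) y
      · rw [up, if_pos h]; exact e1.trans (br_up1 i _)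
      · rw [up, if_neg h]; exact e2.trans (br_up2 i _)
    · by_cases h : L cs (cs.simple i) (t * y)
      · rw [dn.eq_1 cs i (t * y), if_pos h]; exact (br_dn2 i y).trans e2
      · rw [dn.eq_1 cs i (t * y), if_neg h]; exact (br_dn1 i y).trans e1

lemma br_updn (i : B) {y w : W} (h : Br cs y w) :
    Br cs (up cs i y) (up cs i w) ∧ Br cs (dn cs i y) (dn cs i w) := by
  induction h with
  | refl => exact ⟨.refl, .refl⟩
  | tail _ h ih => exact ⟨ih.1.trans (ed_updn i h).1, ih.2.trans (ed_updn i h).2⟩

lemma br_len {y w : W} (h : Br cs y w) : y = w ∨ cs.length y < cs.length w := by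
  induction h with
  | refl => exact Or.inl rfl
  | tail _ h ih =>
    obtain ⟨t, -, -, hl⟩ := h
    rcases ih with rfl | ih
    · exact Or.inr hl
    · exact Or.inr (ih.trans hl)

lemma br_lift (k : B) : ∀ (n : ℕ) (x y w : W), cs.length x = n →
    cs.length (x * cs.simple k) = cs.length x + 1 → le cs x y → le cs (x * cs.simple k) w →
    Br cs y w → Br cs (x * cs.simple k * x⁻¹ * y) w := by
  intro n
  induction n with
  | zero =>
    intro x y w h0 _ _ hw h
    rw [cs.length_eq_zero_iff] at h0
    subst h0
    rw [one_mul] at *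
    rw [inv_one, mul_one]
    have h1 := (br_updn k h).1
    rw [up.eq_1 cs k w, if_pos (simple_le.1 hw)] at h1
    exact (br_up2 k y).trans h1
  | succ n ih =>
    intro x y w hn hx hxy hw h
    have hx1 : x ≠ 1 := by rintro rfl; simp at hn
    obtain ⟨i, hi⟩ := cs.exists_leftDescent_of_ne_one hx1
    have sx : L cs (cs.simple i) x := hi
    have sz : L cs (cs.simple i) (x * cs.simple k) := (le_step hx).L sx
    have sw : L cs (cs.simple i) w := hw.L sz
    have sy : L cs (cs.simple i) y := hxy.L sx
    have l1 := L_len sx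
    have l2 := L_len sz
    have h1 := (br_updn i h).2
    rw [dn, dn, if_pos sy, if_pos sw] at h1
    have h2 := ih (cs.simple i * x) (cs.simple i * y) (cs.simple i * w) (by omega)
      (by rw [mul_assoc]; omega) ((le_down sx sy).2 hxy)
      (by rw [mul_assoc]; exact (le_down sz sw).2 hw) h1
    have h3 := (br_updn i h2).1
    rw [up.eq_1 cs i (cs.simple i * w), if_neg (fun h => L_flip.1 h sw),
      cs.simple_mul_simple_cancel_left] at h3
    have h4 := (br_up2 i _).trans h3
    rwa [label_conj, show cs.simple i * (cs.simple i * (x * cs.simple k * x⁻¹) * cs.simple i *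
      (cs.simple i * y)) = x * cs.simple k * x⁻¹ * y by simp [mul_assoc]] at h4

/-- Below `w`, every element has an upward Bruhat edge whose label is an inversion of `w` and not
a common inversion of `a` and `b`. -/
lemma exists_edge {a b w y : W} (ha : le cs a w) (hb : le cs b w)
    (hab : ∀ i, L cs (cs.simple i) a → ¬ L cs (cs.simple i) b) (h : Br cs y w) (hne : y ≠ w) :
    ∃ t, cs.IsReflection t ∧ L cs t w ∧ ¬ L cs t y ∧ Br cs (t * y) w ∧
      (¬ L cs t a ∨ ¬ L cs t b) := by
  have hl : cs.length y < cs.length w := (br_len h).resolve_left hne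
  obtain ⟨x, k, h1, h2, h3, h4⟩ := exists_shortest (cs := cs) (w := w) (y := y)
    (by unfold le; omega)
  have hxy : le cs x y := h3 x ((le_step h1).trans h2) le_rfl
  refine ⟨_, refl_label x k, h2.L ?_, not_L_of_not_le h1 hxy h4, br_lift k _ x y w rfl h1 hxy h2 h,
    ?_⟩
  · unfold L
    rw [show x * cs.simple k * x⁻¹ * (x * cs.simple k) = x by simp [mul_assoc]]
    omega
  · by_contra hc
    push Not at hc
    have za := claimN k _ w y x a rfl h1 h2 h3 h4 ha hc.1
    have zb := claimN k _ w y x b rfl h1 h2 h3 h4 hb hc.2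
    have hz : x * cs.simple k ≠ 1 := by intro h0; rw [h0] at h1; simp at h1
    obtain ⟨i, hi⟩ := cs.exists_leftDescent_of_ne_one hz
    exact hab i (za.L hi) (zb.L hi)

variable (cs) in
/-- an edge of the Bruhat graph whose label is a left inversion of `u` or of `v` -/
def St (u v x z : W) : Prop :=
  ∃ r, cs.IsReflection r ∧ (L cs r u ∨ L cs r v) ∧ z = r * x ∧ cs.length x < cs.length z

lemma L_swap {j t : W} (ht : cs.IsReflection t) (h : L cs t j⁻¹) : L cs (j * t * j⁻¹) j := by
  unfold L at *
  rw [inv_mul_cancel_right, ← cs.length_inv (j * t), mul_inv_rev, ht.inv]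
  rwa [cs.length_inv j] at h

lemma le_dual {u j : W} (h : le cs u j) : le cs (j⁻¹ * u) j⁻¹ := by
  unfold le at *
  rw [show (j⁻¹ * u)⁻¹ * j⁻¹ = u⁻¹ by group, cs.length_inv, cs.length_inv,
    ← cs.length_inv (j⁻¹ * u), mul_inv_rev, inv_inv]
  omega

/-- every `j y` with `y ≤ j⁻¹` in the Bruhat order is a vertex of a Bruhat path for the pair `u, v` -/
lemma reach {u v j : W} (hu : le cs u j) (hv : le cs v j)
    (hj : ∀ w, le cs u w → le cs v w → le cs j w) : ∀ (n : ℕ) (y : W),
    cs.length j⁻¹ ≤ cs.length y + n → Br cs y j⁻¹ →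
    Relation.ReflTransGen (St cs u v) 1 (j * y) := by
  have hab : ∀ i, L cs (cs.simple i) (j⁻¹ * u) → ¬ L cs (cs.simple i) (j⁻¹ * v) := by
    intro i h1 h2
    have h3 := L_len ((le_dual hu).L h1)
    have h4 := L_len h1
    have h5 := L_len h2
    have e : ∀ g : W, cs.length (cs.simple i * (j⁻¹ * g)) = cs.length (g⁻¹ * (j * cs.simple i)) := by
      intro g
      rw [← cs.length_inv]
      congr 1
      simp [mul_assoc]
    have e' : ∀ g : W, cs.length (j⁻¹ * g) = cs.length (g⁻¹ * j) := by
      intro g
      rw [← cs.length_inv]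
      congr 1
      simp
    have e0 := e 1
    rw [mul_one, inv_one, one_mul] at e0
    rw [e, e'] at h4 h5
    rw [e0, cs.length_inv] at h3
    have := hj (j * cs.simple i) (by unfold le at *; omega) (by unfold le at *; omega)
    unfold le at this
    omega
  intro n
  induction n with
  | zero =>
    intro y hl h
    rcases br_len h with rfl | h'
    · rw [mul_inv_cancel]
    · omega
  | succ n ih =>
    intro y hl h
    by_cases hne : y = j⁻¹
    · rw [hne, mul_inv_cancel]
    obtain ⟨t, ht, h1, h2, h3, h4⟩ := exists_edge (le_dual hu) (le_dual hv) hab h hne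
    have hr : cs.IsReflection (j * t * j⁻¹) := ht.conj j
    have hj' := L_swap ht h1
    have key : ∀ g, ¬ L cs t g → L cs (j * t * j⁻¹) (j * g) := by
      intro g hg
      rw [L_mul hr, show j⁻¹ * (j * t * j⁻¹) * j = t by group]
      tauto
    have hlt : cs.length y < cs.length (t * y) := by
      have := ht.length_mul_right_ne y
      unfold L at h2
      omega
    refine (ih (t * y) (by omega) h3).tail ⟨j * t * j⁻¹, hr, ?_, ?_, ?_⟩
    · rcases h4 with h4 | h4
      · left; simpa using key _ h4
      · right; simpa using key _ h4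
    · rw [show j * t * j⁻¹ * (j * (t * y)) = j * (t * t) * y by group, ht.mul_self, mul_one]
    · have := key y h2
      unfold L at this
      rwa [show j * t * j⁻¹ * (j * y) = j * (t * y) by group] at this

lemma st_len {u v j x z : W} (hu : le cs u j) (hv : le cs v j) (h : St cs u v x z) :
    cs.length (j⁻¹ * z) < cs.length (j⁻¹ * x) := by
  obtain ⟨r, hr, h1, rfl, h2⟩ := h
  have hj : L cs r j := h1.elim hu.L hv.L
  have ht : cs.IsReflection (j⁻¹ * r * j) := by simpa using hr.conj j⁻¹
  have h3 : L cs (j⁻¹ * r * j) j⁻¹ := by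
    have := L_swap (j := j⁻¹) hr (by rwa [inv_inv])
    rwa [inv_inv] at this
  have h4 : L cs (j⁻¹ * r * j) (j⁻¹ * x) := by
    rw [L_mul ht, show j⁻¹⁻¹ * (j⁻¹ * r * j) * j⁻¹ = r by group]
    have : ¬ L cs r x := by unfold L; omega
    tauto
  unfold L at h4
  rwa [show j⁻¹ * r * j * (j⁻¹ * x) = j⁻¹ * (r * x) by group] at h4

theorem dyer_join {u v j : W} (hu : le cs u j) (hv : le cs v j)
    (hj : ∀ w, le cs u w → le cs v w → le cs j w) {t : W} (ht : cs.IsReflection t) :
    L cs t j ↔ Relation.ReflTransGen (St cs u v) 1 t := by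
  have e : cs.length (j⁻¹ * t) = cs.length (t * j) := by
    rw [← cs.length_inv, mul_inv_rev, inv_inv, ht.inv]
  constructor
  · intro h
    have hb : Br cs (j⁻¹ * t) j⁻¹ := by
      refine .single ⟨j⁻¹ * t * j, by simpa using ht.conj j⁻¹, ?_, ?_⟩
      · rw [show j⁻¹ * t * j * (j⁻¹ * t) = j⁻¹ * (t * t) by group, ht.mul_self, mul_one]
      · rw [e, cs.length_inv]; exact h
    have := reach hu hv hj (cs.length j⁻¹) _ (by omega) hb
    rwa [mul_inv_cancel_left] at this
  · intro h
    have key : ∀ z, Relation.ReflTransGen (St cs u v) 1 z →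
        cs.length (j⁻¹ * z) ≤ cs.length (j⁻¹ * 1) := by
      intro z hz
      induction hz with
      | refl => exact le_rfl
      | tail _ h ih => exact (st_len hu hv h).le.trans ih
    have h1 := key t h
    have h2 := ht.length_mul_right_ne j
    rw [e, mul_one, cs.length_inv] at h1
    unfold L
    omega

lemma rtg_iff {α : Type*} (R : α → α → Prop) (a b : α) : Relation.ReflTransGen R a b ↔
    ∃ (n : ℕ) (f : ℕ → α), f 0 = a ∧ f n = b ∧ ∀ i, i < n → R (f i) (f (i + 1)) := by
  constructor
  · intro h
    induction h with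
    | refl => exact ⟨0, fun _ => a, rfl, rfl, fun i hi => absurd hi (Nat.not_lt_zero i)⟩
    | @tail c d _ h ih =>
      obtain ⟨n, f, h0, hn, hs⟩ := ih
      refine ⟨n + 1, fun i => if i ≤ n then f i else d, by simp [h0], by simp, fun i hi => ?_⟩
      by_cases h1 : i < n
      · simp only [if_pos h1.le, if_pos (Nat.succ_le_of_lt h1)]
        exact hs i h1
      · have h2 : i = n := by omega
        subst h2
        simpa [hn] using h
  · rintro ⟨n, f, rfl, rfl, hs⟩
    induction n with
    | zero => exact .refl
    | succ n ih => exact (ih fun i hi => hs i (by omega)).tail (hs n (by omega))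

end Pool.Agent.H807Z.Dyer
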