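import Pool.Agent.Helper741.Exchange

set_option autoImplicit false

/-! Left inversions, the right weak order, and the key lemma on shortest elements. -/

namespace Pool.Agent.H807Z.Dyer

open CoxeterSystem Pool.Agent.Helper741 Pool.Agent.Helper741.TExt

variable {B : Type*} {M : CoxeterMatrix B} {W : Type*} [Group W] (cs : CoxeterSystem M W)

/-- `t` shortens `w` on the left -/
def L (t w : W) : Prop := cs.length (t * w) < cs.length w

/-- the right weak order -/
def le (x y : W) : Prop := cs.length x + cs.length (x⁻¹ * y) = cs.length y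

lemma invc_mul (g h t : W) :
    (invc cs (g * h)).v t = (invc cs g).v t + (invc cs h).v (g⁻¹ * t * g) := by
  rw [map_mul, mul_v, Finsupp.add_apply, act_apply, invc_w]

lemma invc_refl {t : W} (ht : cs.IsReflection t) : (invc cs t).v t = 1 := by
  classical
  obtain ⟨g, i, rfl⟩ := ht
  have e1 : g⁻¹ * (g * cs.simple i * g⁻¹) * g = cs.simple i := by group
  have e2 : (cs.simple i)⁻¹ * cs.simple i * cs.simple i = cs.simple i := by group
  have h0 : (invc cs g).v (g * cs.simple i * g⁻¹) + (invc cs g⁻¹).v (cs.simple i) = 0 := by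
    have := invc_mul cs g g⁻¹ (g * cs.simple i * g⁻¹)
    rw [e1, mul_inv_cancel, map_one, one_v, Finsupp.zero_apply] at this
    exact this.symm
  have h1 := invc_mul cs g (cs.simple i * g⁻¹) (g * cs.simple i * g⁻¹)
  rw [e1, invc_mul cs (cs.simple i) g⁻¹, e2, invc_simple, el_v, Finsupp.single_eq_same, ← mul_assoc] at h1
  rw [h1, add_left_comm, h0, add_zero]

lemma L_of_invc {t w : W} (h : (invc cs w).v t ≠ 0) : L cs t w := by
  obtain ⟨ω, hred, rfl⟩ := cs.exists_isReduced w
  exact (cs.isLeftInversion_of_mem_leftInvSeq hred (mem_leftInvSeq_of_invc cs ω _ h)).2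

lemma L_iff {t : W} (ht : cs.IsReflection t) (w : W) : L cs t w ↔ (invc cs w).v t = 1 := by
  constructor
  · intro h
    by_contra h1
    have h0 : (invc cs w).v t = 0 := by
      revert h1; generalize (invc cs w).v t = a; revert a; decide
    have h2 : (invc cs (t * w)).v t ≠ 0 := by
      have e : t⁻¹ * t * t = t := by group
      rw [invc_mul, invc_refl cs ht, e, h0]
      decide
    have h3 := L_of_invc cs h2
    unfold L at h h3
    rw [← mul_assoc, ht.mul_self, one_mul] at h3
    omega
  · intro h
    exact L_of_invc cs (by rw [h]; decide)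

variable {cs}

/-- the cocycle property of left inversion sets -/
lemma L_mul {t : W} (ht : cs.IsReflection t) (g h : W) :
    L cs t (g * h) ↔ (L cs t g ↔ ¬ L cs (g⁻¹ * t * g) h) := by
  have ht' : cs.IsReflection (g⁻¹ * t * g) := by simpa using ht.conj g⁻¹
  rw [L_iff cs ht, L_iff cs ht, L_iff cs ht', invc_mul]
  generalize (invc cs g).v t = a
  generalize (invc cs h).v (g⁻¹ * t * g) = b
  revert a b
  decide

lemma L_simple_right {t : W} {i : B} (h : L cs t (cs.simple i)) : t = cs.simple i := by
  unfold L at h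
  rw [cs.length_simple, Nat.lt_one_iff, cs.length_eq_zero_iff] at h
  rw [eq_inv_of_mul_eq_one_left h, cs.inv_simple]

lemma L_conj {t : W} (ht : cs.IsReflection t) {i : B} (hne : t ≠ cs.simple i) (a : W) :
    L cs (cs.simple i * t * cs.simple i) (cs.simple i * a) ↔ L cs t a := by
  have ht' : cs.IsReflection (cs.simple i * t * cs.simple i) := by
    simpa using ht.conj (cs.simple i)
  have e : (cs.simple i)⁻¹ * (cs.simple i * t * cs.simple i) * cs.simple i = t := by
    simp [mul_assoc]
  have hn : ¬ L cs (cs.simple i * t * cs.simple i) (cs.simple i) := by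
    intro h
    apply hne
    have := L_simple_right h
    rw [← e, this]
    simp
  rw [L_mul ht', e]
  tauto

lemma L_len {i : B} {x : W} (h : L cs (cs.simple i) x) :
    cs.length (cs.simple i * x) + 1 = cs.length x := by
  unfold L at h
  rcases cs.length_simple_mul x i with h1 | h1 <;> omega

lemma nL_len {i : B} {x : W} (h : ¬ L cs (cs.simple i) x) :
    cs.length (cs.simple i * x) = cs.length x + 1 := by
  unfold L at h
  rcases cs.length_simple_mul x i with h1 | h1 <;> omega

lemma L_flip {i : B} {x : W} : L cs (cs.simple i) (cs.simple i * x) ↔ ¬ L cs (cs.simple i) x := by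
  unfold L
  rw [cs.simple_mul_simple_cancel_left]
  rcases cs.length_simple_mul x i with h1 | h1 <;> omega

lemma le.L {x y t : W} (h : le cs x y) (ht : L cs t x) : L cs t y := by
  unfold Dyer.L le at *
  have := cs.length_mul_le (t * x) (x⁻¹ * y)
  rw [show t * x * (x⁻¹ * y) = t * y by group] at this
  omega

lemma le.trans {x y z : W} (h1 : le cs x y) (h2 : le cs y z) : le cs x z := by
  unfold le at *
  have a := cs.length_mul_le (x⁻¹ * y) (y⁻¹ * z)
  rw [show x⁻¹ * y * (y⁻¹ * z) = x⁻¹ * z by group] at a
  have b := cs.length_mul_le x (x⁻¹ * z)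
  rw [show x * (x⁻¹ * z) = z by group] at b
  omega

lemma le_refl' (x : W) : le cs x x := by simp [le]

lemma one_le' (x : W) : le cs 1 x := by simp [le]

lemma simple_le {i : B} {y : W} : le cs (cs.simple i) y ↔ L cs (cs.simple i) y := by
  unfold le L
  rw [cs.length_simple, cs.inv_simple]
  rcases cs.length_simple_mul y i with h1 | h1 <;> omega

lemma cancel_simple (i : B) (x y : W) : (cs.simple i * x)⁻¹ * (cs.simple i * y) = x⁻¹ * y := by
  group

lemma le_down {i : B} {x y : W} (hx : L cs (cs.simple i) x) (hy : L cs (cs.simple i) y) :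
    le cs (cs.simple i * x) (cs.simple i * y) ↔ le cs x y := by
  unfold le
  rw [cancel_simple]
  have := L_len hx
  have := L_len hy
  omega

lemma le_up {i : B} {x y : W} (hx : ¬ L cs (cs.simple i) x) (hy : ¬ L cs (cs.simple i) y)
    (h : le cs x y) : le cs (cs.simple i * x) (cs.simple i * y) := by
  unfold le at *
  rw [cancel_simple]
  have := nL_len hx
  have := nL_len hy
  omega

lemma le_step {x : W} {i : B} (h : cs.length (x * cs.simple i) = cs.length x + 1) :
    le cs x (x * cs.simple i) := by
  unfold le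
  rw [inv_mul_cancel_left, cs.length_simple, h]

lemma exists_step {x w : W} (h : le cs x w) (hne : x ≠ w) : ∃ i : B,
    cs.length (x * cs.simple i) = cs.length x + 1 ∧ le cs (x * cs.simple i) w := by
  have h1 : x⁻¹ * w ≠ 1 := fun h1 => hne (inv_mul_eq_one.1 h1)
  obtain ⟨i, hi⟩ := cs.exists_leftDescent_of_ne_one h1
  have h2 := L_len (cs := cs) (i := i) (x := x⁻¹ * w) hi
  have e : (x * cs.simple i)⁻¹ * w = cs.simple i * (x⁻¹ * w) := by
    rw [mul_inv_rev, cs.inv_simple, mul_assoc]
  have h3 := cs.length_mul_le (x * cs.simple i) ((x * cs.simple i)⁻¹ * w)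
  rw [mul_inv_cancel_left, e] at h3
  refine ⟨i, ?_, ?_⟩
  · unfold le at h
    rcases cs.length_mul_simple x i with h4 | h4 <;> omega
  · unfold le at *
    rw [e]
    rcases cs.length_mul_simple x i with h4 | h4 <;> omega

lemma exch {i k : B} {c : W} (h1 : ¬ L cs (cs.simple i) c)
    (h2 : L cs (cs.simple i) (c * cs.simple k)) : cs.simple i * c = c * cs.simple k := by
  rw [L_mul (cs.isReflection_simple i)] at h2
  have h3 : L cs (c⁻¹ * cs.simple i * c) (cs.simple k) := by tauto
  rw [← L_simple_right h3]
  group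

lemma lemS {i : B} {w : W} (hw : L cs (cs.simple i) w) : ∀ (n : ℕ) (a : W),
    cs.length (a⁻¹ * w) = n → le cs a w → ¬ L cs (cs.simple i) a →
    ∃ c, le cs a c ∧ ¬ L cs (cs.simple i) c ∧ le cs c (cs.simple i * c) ∧
      le cs (cs.simple i * c) w := by
  intro n
  induction n with
  | zero =>
    intro a h0 _ ha
    rw [cs.length_eq_zero_iff, inv_mul_eq_one] at h0
    exact absurd (h0 ▸ hw) ha
  | succ n ih =>
    intro a hn haw ha
    obtain ⟨k, hk, hkw⟩ := exists_step haw (fun h => ha (h ▸ hw))
    by_cases h : L cs (cs.simple i) (a * cs.simple k)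
    · refine ⟨a, le_refl' a, ha, ?_, ?_⟩
      · rw [exch ha h]; exact le_step hk
      · rw [exch ha h]; exact hkw
    · obtain ⟨c, h1, h2⟩ := ih (a * cs.simple k) (by unfold le at haw hkw; omega) hkw h
      exact ⟨c, (le_step hk).trans h1, h2⟩

lemma lemS2 {i : B} {w a : W} (hw : L cs (cs.simple i) w) (haw : le cs a w)
    (ha : ¬ L cs (cs.simple i) a) : le cs (cs.simple i * a) w := by
  obtain ⟨c, h1, h2, -, h4⟩ := lemS hw _ a rfl haw ha
  exact (le_up ha h2 h1).trans h4

lemma refl_label (x : W) (k : B) : cs.IsReflection (x * cs.simple k * x⁻¹) :=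
  (cs.isReflection_simple k).conj x

lemma not_L_label {x : W} {k : B} (h : cs.length (x * cs.simple k) = cs.length x + 1) :
    ¬ L cs (x * cs.simple k * x⁻¹) x := by
  unfold L
  rw [inv_mul_cancel_right]
  omega

lemma label_conj (i k : B) (x : W) : cs.simple i * x * cs.simple k * (cs.simple i * x)⁻¹ =
    cs.simple i * (x * cs.simple k * x⁻¹) * cs.simple i := by
  rw [mul_inv_rev, cs.inv_simple]
  group

/-- Key lemma: a shortest element below `w` and not below `y` lies below every element below `w`
that has its last inversion. -/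
lemma claimN (k : B) : ∀ (n : ℕ) (w y x a : W), cs.length x = n →
    cs.length (x * cs.simple k) = cs.length x + 1 → le cs (x * cs.simple k) w →
    (∀ u, le cs u w → cs.length u ≤ n → le cs u y) → ¬ le cs (x * cs.simple k) y →
    le cs a w → L cs (x * cs.simple k * x⁻¹) a → le cs (x * cs.simple k) a := by
  intro n
  induction n with
  | zero =>
    intro w y x a h0 _ _ _ _ _ ht
    rw [cs.length_eq_zero_iff] at h0
    subst h0
    rw [one_mul] at *
    rw [inv_one, mul_one] at ht
    exact simple_le.2 ht
  | succ n ih =>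
    intro w y x a hn hx hw hmin hy haw ht
    have hx1 : x ≠ 1 := by rintro rfl; simp at hn
    obtain ⟨i, hi⟩ := cs.exists_leftDescent_of_ne_one hx1
    have sx : L cs (cs.simple i) x := hi
    have sz : L cs (cs.simple i) (x * cs.simple k) := (le_step hx).L sx
    have sw : L cs (cs.simple i) w := hw.L sz
    have sy : L cs (cs.simple i) y :=
      simple_le.1 (hmin _ (simple_le.2 sw) (by rw [cs.length_simple]; omega))
    have hne : x * cs.simple k * x⁻¹ ≠ cs.simple i := fun h => not_L_label hx (h ▸ sx)
    have l1 := L_len sx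
    have l2 := L_len sz
    have A : ∀ a, le cs a w → L cs (x * cs.simple k * x⁻¹) a → L cs (cs.simple i) a →
        le cs (x * cs.simple k) a := by
      intro a haw ht sa
      rw [← le_down sz sa, ← mul_assoc]
      refine ih (cs.simple i * w) (cs.simple i * y) (cs.simple i * x) (cs.simple i * a)
        (by omega) (by rw [mul_assoc]; omega) ?_ ?_ ?_ ((le_down sa sw).2 haw) ?_
      · rw [mul_assoc]; exact (le_down sz sw).2 hw
      · intro u hu hl
        have nsw : ¬ L cs (cs.simple i) (cs.simple i * w) := fun h => L_flip.1 h sw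
        have nu : ¬ L cs (cs.simple i) u := fun h => nsw (hu.L h)
        have h1 := le_up nu nsw hu
        rw [cs.simple_mul_simple_cancel_left] at h1
        have h2 := hmin _ h1 (by rw [nL_len nu]; omega)
        have h3 := (le_down (L_flip.2 nu) sy).2 h2
        rwa [cs.simple_mul_simple_cancel_left] at h3
      · rw [mul_assoc, le_down sz sy]; exact hy
      · rw [label_conj, L_conj (refl_label x k) hne]; exact ht
    by_cases sa : L cs (cs.simple i) a
    · exact A a haw ht sa
    · exfalso
      obtain ⟨c, h1, h2, h3, h4⟩ := lemS sw _ a rfl haw sa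
      have h5 := A _ h4 ((h1.trans h3).L ht) (L_flip.2 h2)
      have h6 := (le_down sz (L_flip.2 h2)).2 h5
      rw [cs.simple_mul_simple_cancel_left] at h6
      have h7 := hmin _ (h6.trans (h3.trans h4)) (by omega)
      have h8 := lemS2 sy h7 (fun h => L_flip.1 h sz)
      rw [cs.simple_mul_simple_cancel_left] at h8
      exact hy h8

lemma exists_shortest {w y : W} (h : ¬ le cs w y) : ∃ (x : W) (k : B),
    cs.length (x * cs.simple k) = cs.length x + 1 ∧ le cs (x * cs.simple k) w ∧
    (∀ u, le cs u w → cs.length u ≤ cs.length x → le cs u y) ∧ ¬ le cs (x * cs.simple k) y := by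
  classical
  have hex : ∃ n, ∃ z, le cs z w ∧ ¬ le cs z y ∧ cs.length z = n := ⟨_, w, le_refl' w, h, rfl⟩
  obtain ⟨z, h1, h2, h3⟩ := Nat.find_spec hex
  have hz : z ≠ 1 := by rintro rfl; exact h2 (one_le' y)
  obtain ⟨k, hk⟩ := cs.exists_rightDescent_of_ne_one hz
  have hk' : cs.length (z * cs.simple k) + 1 = cs.length z := by
    unfold CoxeterSystem.IsRightDescent at hk
    rcases cs.length_mul_simple z k with h4 | h4 <;> omega
  refine ⟨z * cs.simple k, k, ?_, ?_, ?_, ?_⟩
  · rw [cs.simple_mul_simple_cancel_right]; omega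
  · rw [cs.simple_mul_simple_cancel_right]; exact h1
  · intro u hu hl
    by_contra hn
    exact Nat.find_min hex (m := cs.length u) (by omega) ⟨u, hu, hn, rfl⟩
  · rw [cs.simple_mul_simple_cancel_right]; exact h2

lemma not_L_of_not_le {x y : W} {k : B} (hx : cs.length (x * cs.simple k) = cs.length x + 1)
    (hxy : le cs x y) (hy : ¬ le cs (x * cs.simple k) y) : ¬ L cs (x * cs.simple k * x⁻¹) y := by
  intro h
  apply hy
  have h1 := (L_mul (refl_label (cs := cs) x k) x (x⁻¹ * y))
  rw [mul_inv_cancel_left, show x⁻¹ * (x * cs.simple k * x⁻¹) * x = cs.simple k by group] at h1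
  have h2 := not_L_label hx
  have h3 : L cs (cs.simple k) (x⁻¹ * y) := by tauto
  have h4 := L_len h3
  unfold le at *
  rw [mul_inv_rev, cs.inv_simple, mul_assoc]
  omega

end Pool.Agent.H807Z.Dyer
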